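import Pool.Agent.H34.OP.Final
import Pool.Agent.H19.OD.Words

/-!
# Descent of Galois representations along extensions of degree prime to the dimension

No Galois, solubility or general position hypothesis, and no isomorphisms between the given
representations are assumed: they are compared through their Frobenius polynomials at places of
degree one only. Applied with `n = 2`, `F = F_{θ,λ}`, `δ` from the central character and `W` the two
conditions in the definition of weight two, it reduces the existence statement in Q1 for `θ` over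
`K`, with the numbers at the places `v` that have a place of residue degree one in `L`, to one
extension `L` of odd degree over which the representation exists and stays irreducible on the
absolute Galois group of the Galois closure of `L`. The numbers at all `v` follow when the conjugates
of the `G_{L i}` cover `G_K` and no prime divides all `[L i : K]`, for example for the quadratic and
a cubic subfield of an `S_3` extension.
-/

open scoped Pointwise NumberField
open Matrix IsDedekindDomain Pool.Agent.H71.Patch Pool.Agent.H19.OD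

namespace Pool.Agent.Results.MP_976e2b_nt.CoprimeDescent

/-- **Descent.** `K` is a number field, `L i` are finite extensions (not necessarily Galois), `𝓜` is
a directed family of finite Galois extensions of `K` such that every `L i` is contained in some
`M ∈ 𝓜`, and for every `M ∈ 𝓜` some `[L i ∩ M : K]` is prime to `n` (for one extension `L` of degree
prime to `n` take `𝓜` to consist of its Galois closure). The `ρ i` are continuous
`n`-dimensional representations of the absolute Galois groups of the `L i` whose determinants are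
the restrictions of a character `δ` of the absolute Galois group of `K` and whose Frobenius
polynomials at the places of degree one over `K` are given by polynomials `P v` attached to the
primes `v` of `K`; and `ρ i₀` is absolutely irreducible on `G_M` for all `M ∈ 𝓜` containing
`L i₀`. Then the `ρ i` are the restrictions of a unique representation of the absolute Galois group
of `K` with determinant `δ`, with the stated local properties. -/
theorem result {K : Type} [Field K] [NumberField K] {F : Type*} [Field F] [TopologicalSpace F]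
    [IsTopologicalRing F] [T2Space F] {n : ℕ} {ι : Type*}
    (L : ι → IntermediateField K (AlgebraicClosure K)) [∀ i, FiniteDimensional K (L i)]
    (𝓜 : Set (IntermediateField K (AlgebraicClosure K))) (hL : PrimeFamily n L 𝓜)
    (ρ : ∀ i, (L i).fixingSubgroup →* GL (Fin n) F) (hρ : ∀ i, Continuous (ρ i))
    (δ : GalK K →* Fˣ)
    (det : ∀ i (g : (L i).fixingSubgroup), Matrix.GeneralLinearGroup.det (ρ i g) = δ g)
    (S : Set (HeightOneSpectrum (𝓞 K))) (hS : S.Finite)
    (P : HeightOneSpectrum (𝓞 K) → Polynomial F)
    (hP : ∀ i, ∀ v ∉ S, ∀ Q, Above v Q → Dec Q ≤ (L i).fixingSubgroup → FrobAt (ρ i) Q (P v))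
    (i₀ : ι) (irr : ∀ M ∈ 𝓜, L i₀ ≤ M → SpansOn (ρ i₀) M.fixingSubgroup) :
    ∃ σ : GalK K →* GL (Fin n) F, Continuous σ ∧
      (∀ g, Matrix.GeneralLinearGroup.det (σ g) = δ g) ∧ RestrictsTo σ ρ ∧
      (∀ τ : GalK K →* GL (Fin n) F, (∀ g, Matrix.GeneralLinearGroup.det (τ g) = δ g) →
        RestrictsTo τ ρ → ∃ T : GL (Fin n) F, ∀ g, τ g = T * σ g * T⁻¹) ∧
      (∀ i, Irred (ρ i) → Irred σ) ∧
      (∀ v, (∀ p : ℕ, p.Prime → ∃ i, ∃ Q, Above v Q ∧ UnramAt (ρ i) Q ∧
        ¬ p ∣ (L i).fixingSubgroup.relIndex (Q.inertia (GalK K))) → UnramV σ v) ∧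
      (∀ v, UnramV σ v → ∀ i Q, Above v Q → ∀ φ : (L i).fixingSubgroup,
        IsArithFrobAt (𝓞 K) (φ : GalK K) Q →
          FrobV σ v (ρ i φ : Matrix (Fin n) (Fin n) F).charpoly) ∧
      ((∀ g : GalK K, ∃ i, ∃ h : GalK K, h * g * h⁻¹ ∈ (L i).fixingSubgroup) →
        (∀ p : ℕ, p.Prime → ∃ i, ¬ p ∣ Module.finrank K (L i)) →
        ∀ v p, (∀ i Q, Above v Q → UnramAt (ρ i) Q ∧ FrobAt (ρ i) Q p) →
          UnramV σ v ∧ FrobV σ v p) ∧
      (∀ W, IsLocalProperty W → ∀ v, (∃ i, ∃ Q, Above v Q ∧ PotAt W (ρ i) Q) →
        ∀ Q, Above v Q → PotAt W (σ.comp (⊤ : Subgroup (GalK K)).subtype) Q) := by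
  obtain ⟨gal, dir, cov, cop⟩ := hL
  obtain ⟨σ, h1, h2, h3, h4, h5, h6, h7, h8, h9⟩ :=
    Pool.Agent.H34.OP.descent K L 𝓜 gal dir cov cop ρ hρ δ det S hS P hP i₀ irr
  refine ⟨σ, h1, h2, h3, h4, h5, h6, ?_, ?_, h9⟩
  · intro v hv i Q hQ φ hφ
    exact h7 v hv _ ⟨i, Q, hQ, φ, hφ, rfl⟩
  · intro hc hd v p h
    exact ⟨fun Q hQ => (h8 hc hd v p h Q hQ).1, fun Q hQ => (h8 hc hd v p h Q hQ).2⟩

end Pool.Agent.Results.MP_976e2b_nt.CoprimeDescent
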