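import Pool.Agent.H71.Patch.Main

/-!
# Gluing Galois representations given over a family of extensions

No Galois, solubility, semisimplicity or invariance hypothesis. Applied with `n = 2`,
`F = F_{θ,λ}` and `W` the two conditions in the definition of weight two, it reduces the existence
statement Q1 for `θ` over `K` to the same statement for base changes of `θ` to extensions `L i`.
-/

open scoped Pointwise NumberField
open Matrix IsDedekindDomain Pool.Agent.H71.Patch

namespace Pool.Agent.Results.MP_976e2b_nt.GaloisPatching

/-- **Gluing theorem.** Let `L i` be finite extensions of the number field `K` inside an algebraic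
closure such that every finite Galois extension `M` of `K` is disjoint from some `L i` (no `L i` has
to be Galois over `K`). Let `ρ i` be continuous representations of the absolute Galois groups of
`L i` over a topological field `F` such that `ρ i` and `ρ j` are isomorphic on the absolute Galois
group of `L i L j`. Then there is a continuous representation `σ` of the absolute Galois group of
`K`, unique up to isomorphism, which restricts to all `ρ i`. It is irreducible if some `ρ i` is; it
is unramified at `v`, has Frobenius polynomial `P` at `v`, has potentially the local property `W` at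
`v` as soon as this can be seen on one `ρ i` at one place above `v`. -/
theorem result {K : Type*} [Field K] [NumberField K]
    {F : Type*} [Field F] [TopologicalSpace F] [IsTopologicalRing F] {n : ℕ} {ι : Type*}
    (L : ι → IntermediateField K (AlgebraicClosure K)) [∀ i, FiniteDimensional K (L i)]
    (hL : GenPos L)
    (ρ : ∀ i, (L i).fixingSubgroup →* GL (Fin n) F) (hρ : ∀ i, Continuous (ρ i))
    (compat : ∀ i j, IsoOn (ρ i) (ρ j)) :
    ∃ σ : GalK K →* GL (Fin n) F, Continuous σ ∧
      (∀ i, ∃ T : GL (Fin n) F, ∀ g : (L i).fixingSubgroup, ρ i g = T * σ g * T⁻¹) ∧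
      (∀ τ : GalK K →* GL (Fin n) F,
        (∀ i, ∃ T : GL (Fin n) F, ∀ g : (L i).fixingSubgroup, ρ i g = T * τ g * T⁻¹) →
        ∃ T : GL (Fin n) F, ∀ g, τ g = T * σ g * T⁻¹) ∧
      (∀ i, Irred (ρ i) → Irred σ) ∧
      (∀ v : HeightOneSpectrum (𝓞 K),
        (∃ i, ∃ Q, Above v Q ∧ Q.inertia (GalK K) ≤ (L i).fixingSubgroup ∧ UnramAt (ρ i) Q) →
        ∀ Q, Above v Q → UnramAt (σ.comp (⊤ : Subgroup (GalK K)).subtype) Q) ∧
      (∀ (v : HeightOneSpectrum (𝓞 K)) (P : Polynomial F),
        (∃ i, ∃ Q, Above v Q ∧ Dec Q ≤ (L i).fixingSubgroup ∧ FrobAt (ρ i) Q P) →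
        ∀ Q, Above v Q → FrobAt (σ.comp (⊤ : Subgroup (GalK K)).subtype) Q P) ∧
      (∀ W, IsLocalProperty W → ∀ v : HeightOneSpectrum (𝓞 K),
        (∃ i, ∃ Q, Above v Q ∧ PotAt W (ρ i) Q) →
        ∀ Q, Above v Q → PotAt W (σ.comp (⊤ : Subgroup (GalK K)).subtype) Q) :=
  patch L hL ρ hρ compat

end Pool.Agent.Results.MP_976e2b_nt.GaloisPatching
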