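import Pool.Agent.H89.IP.NF

/-!
# Recovering a Galois representation from the induced representations of its twists

Applied with `n = 2`, `F = ℚ` or any subfield of `K`, `E` an algebraic closure of `F_{θ,λ}` and `a` the
numbers expected for the traces of the powers of the Frobenius elements of `K`, it reduces the
existence statement Q1 for `θ` over `K` to the existence of the Galois representations of `G_F` attached
to the automorphic inductions of the twists of `θ`. The extension `K / F` is arbitrary.
-/

open scoped Pointwise NumberField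
open Matrix IsDedekindDomain Pool.Agent.H71.Patch Pool.Agent.H41.TP Pool.Agent.H89.IP

namespace Pool.Agent.Results.MP_976e2b_nt.InductionPatching

/-- **Induction patching.** `K` is a finite extension of the number field `F`, `X` a group of continuous
characters of finite order of the absolute Galois group `G_K` which contains all quadratic characters
or is in general position, `R χ`, `χ ∈ X`, are continuous `N`-dimensional representations of
`G_F`, and `a` is a class function on `G_K` such that for every `χ` the traces of `R χ` at the powers of the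
Frobenius elements outside a finite set `S χ` are those which the representation induced from
`ρ ⊗ χ` would have if `a` were the trace of `ρ`. Then there is a continuous semisimple `ρ`,
unique up to isomorphism, such that the trace of `R χ` is the trace of the induction of `ρ ⊗ χ`, for all
`χ ∈ X`; the trace of `ρ` at `g` is `a g` as soon as `g` is separated by characters from its other
conjugates; `ρ ⊗ χ` is a direct summand of the restriction of `R χ`; `ρ` is trivial where `R χ` and
`χ` are, and irreducible if some `R χ` is. -/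
theorem result {F : Type} [Field F] [NumberField F] (K : IntermediateField F (AlgebraicClosure F))
    [FiniteDimensional F K] {E : Type*} [Field E] [IsAlgClosed E] [CharZero E]
    [TopologicalSpace E] [IsTopologicalRing E] [T2Space E] {N : ℕ}
    (X : Subgroup (K.fixingSubgroup →* Eˣ)) (hX : ∀ χ ∈ X, IsOfFinOrder χ ∧ Continuous χ)
    (gen : GenPosX X ∨ ∀ χ : K.fixingSubgroup →* Eˣ, Continuous χ → χ ^ 2 = 1 → χ ∈ X)
    (R : X → GalK F →* GL (Fin N) E) (hR : ∀ χ, Continuous (R χ))
    (S : X → Set (HeightOneSpectrum (𝓞 F))) (hS : ∀ χ, (S χ).Finite)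
    (a : K.fixingSubgroup → E) (ha : ∀ g h, a (h⁻¹ * g * h) = a g)
    (tr : ∀ χ : X, ∀ g ∈ FrobPow F (S χ), (R χ g).val.trace =
      ind K.fixingSubgroup (fun h => a h * ((χ.1 h : Eˣ) : E)) g) :
    ∃ (n : ℕ) (ρ : K.fixingSubgroup →* GL (Fin n) E), Continuous ρ ∧ Semis ρ ∧
      N = Module.finrank F K * n ∧
      (∀ (χ : X) (g : GalK F), (R χ g).val.trace =
        ind K.fixingSubgroup (fun h => (ρ h).val.trace * ((χ.1 h : Eˣ) : E)) g) ∧
      (∀ (n' : ℕ) (ρ' : K.fixingSubgroup →* GL (Fin n') E), Continuous ρ' → Semis ρ' →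
        (∀ χ : X, ∀ g ∈ FrobPow F (S χ), (R χ g).val.trace =
          ind K.fixingSubgroup (fun h => (ρ' h).val.trace * ((χ.1 h : Eˣ) : E)) g) →
        MIso (fun g => (ρ' g).val) (fun g => (ρ g).val)) ∧
      (∀ X' ≤ X, ∀ g : K.fixingSubgroup, (∀ χ : X, χ.1 ∈ X' → (g : GalK F) ∈ FrobPow F (S χ)) →
        (∀ x : GalK F, ∀ hx : x⁻¹ * (g : GalK F) * x ∈ K.fixingSubgroup,
          (a ⟨x⁻¹ * g * x, hx⟩ = a g ∧ (ρ ⟨x⁻¹ * g * x, hx⟩).val.trace = (ρ g).val.trace) ∨
            ∃ χ ∈ X', χ ⟨x⁻¹ * g * x, hx⟩ ≠ χ g) → (ρ g).val.trace = a g) ∧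
      (∀ χ : X, Semis ((R χ).comp K.fixingSubgroup.subtype) → TwistSummand χ.1 ρ (R χ)) ∧
      (∀ (χ : X) (g : K.fixingSubgroup), R χ g = 1 → χ.1 g = 1 → ρ g = 1) ∧
      ∀ χ : X, Irred (R χ) → Irred ρ :=
  nf K X hX gen R hR S hS a ha tr

end Pool.Agent.Results.MP_976e2b_nt.InductionPatching
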