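import Pool.Agent.H51.QT.Bridge

/-!
# Galois representations for weight two eigenclasses over quadratic extensions of totally real fields

`F` is a totally real number field and `K` a quadratic extension of `F` of any signature. For every
non zero ideal `n` of `K` and every nontrivial character `theta` of the Hecke algebra `T_1(n)` clause (i)
of Q1 holds, for all primes `lambda` and all primes of `K` not dividing `n l`. The published facts used
are the fields of the structure `Facts`.
-/

set_option autoImplicit false

open Pool.Agent.H51.QT

namespace Pool.Agent.Results.MP_976e2b_nt.QuadraticOverTotallyReal

/-- **Weight two eigenclasses over quadratic extensions of totally real fields.** The proof: over the
totally real quadratic extensions `L` of `F` which kill the obstruction to extracting a square root of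
the central character the base change `pi'` of `pi` to `K L` has, after a twist, trivial central
character, and the automorphic inductions of all its quadratic twists to `L` have Galois
representations (field `gsp4`). These determine a representation of the Galois group of `K L`
(patching), whose trace at the places over which `K L / L` splits is the expected one by an
independent choice of ramified quadratic twists, also if the conjugate place is bad; there it is
unramified by the tame relation. The representations for the different `L` are glued together to a
representation of the Galois group of `K`, which is absolutely irreducible and realised over the
completions of one number field. -/
theorem result {F : Type} [Field F] [NumberField F] (K : IntermediateField F (AlgebraicClosure F))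
    (𝒦 : Facts K) : Conclusion 𝒦 :=
  final 𝒦

end Pool.Agent.Results.MP_976e2b_nt.QuadraticOverTotallyReal
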